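import Pool.Agent.Helper2.UN.CDefs
import Pool.Agent.Helper88.TR.RootData

/-!
Two root lengths force equal numbers of weights of the two values.
-/

open Module

namespace UN

open Pool.Agent.Helper54.MT RootPairing

variable {ι K M N : Type*} [Field K] [CharZero K] [AddCommGroup M] [Module K M]
  [AddCommGroup N] [Module K N] {P : RootPairing ι K M N} [Fintype ι] [P.IsCrystallographic]
  {X : Finset M} {s : M →ₗ[K] K} {c : K}

/-- A vector killed by all coroots in a nonempty stable set of indices vanishes. -/
theorem eq_zero_of_coroot' [P.IsIrreducible] (S : Set ι) (hne : S.Nonempty)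
    (hS : ∀ j, ∀ i ∈ S, P.reflectionPerm j i ∈ S) {v : M} (hv : ∀ i ∈ S, P.coroot' i v = 0) :
    v = 0 := by
  let q : Submodule K M := ⨅ i ∈ S, LinearMap.ker (P.coroot' i)
  have hq : ∀ y, y ∈ q ↔ ∀ i ∈ S, P.coroot' i y = 0 := by
    intro y
    simp only [q, Submodule.mem_iInf, LinearMap.mem_ker]
  by_contra hv0
  have htop : q = ⊤ := by
    apply IsIrreducible.eq_top_of_invtSubmodule_reflection (P := P)
    · intro j
      rw [Module.End.mem_invtSubmodule]
      intro y hy
      rw [Submodule.mem_comap]
      rw [hq] at hy ⊢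
      intro i hi
      have := hy _ (hS j i hi)
      rw [← coroot'_reflection] at this
      exact this
    · intro h0
      have : v ∈ q := (hq v).mpr hv
      rw [h0, Submodule.mem_bot] at this
      exact hv0 this
  obtain ⟨i, hi⟩ := hne
  have h1 : P.root i ∈ q := by rw [htop]; exact Submodule.mem_top
  have h2 := (hq _).mp h1 i hi
  rw [root_coroot'_eq_pairing, pairing_same] at h2
  exact two_ne_zero h2

theorem coroot_eq_zero_of_fix {v : M} {j : ι} (h : P.reflection j v = v) :
    P.coroot' j v = 0 := by
  rw [RootPairing.reflection_apply] at h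
  have h1 : P.coroot' j v • P.root j = 0 := by
    have : P.coroot' j v • P.root j = v - (v - P.coroot' j v • P.root j) := by abel
    rw [this, h, sub_self]
  exact (smul_eq_zero.mp h1).resolve_right (P.ne_zero j)

theorem reflection_sum (hX : ∀ x ∈ X, ∀ i, P.reflection i x ∈ X) (f : M → K) {j : ι}
    (hf : ∀ x ∈ X, f (P.reflection j x) = f x) :
    P.reflection j (∑ x ∈ X, f x • x) = ∑ x ∈ X, f x • x := by
  rw [map_sum]
  refine Finset.sum_bij' (fun x _ => P.reflection j x) (fun x _ => P.reflection j x)
    (fun x hx => hX x hx j) (fun x hx => hX x hx j) ?_ ?_ ?_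
  · intro x _
    simp
  · intro x _
    simp
  · intro x hx
    rw [map_smul, hf x hx]

theorem coroot_reflection (i j : ι) (x : M) :
    P.coroot' i (P.reflection j x) = P.coroot' i x - P.coroot' j x * (P.pairingIn ℤ j i : K) := by
  rw [RootPairing.reflection_apply, map_sub, map_smul, pair_cast, smul_eq_mul]

theorem USit.sub_mem' (h : USit P X s c) {x : M} (hx : x ∈ X) {i : ι}
    (h1 : P.coroot' i x = 1) : x - P.root i ∈ X := by
  have := h.ws.refl x hx i
  rwa [RootPairing.reflection_apply, h1, one_smul] at this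

theorem USit.add_mem (h : USit P X s c) {x : M} (hx : x ∈ X) {i : ι}
    (h1 : P.coroot' i x = -1) : x + P.root i ∈ X := by
  have := h.ws.refl x hx i
  rw [RootPairing.reflection_apply, h1, neg_one_smul, sub_neg_eq_add] at this
  exact this

theorem USit.sroot' (h : USit P X s c) (i : ι) :
    s (P.root i) = 0 ∨ s (P.root i) = 1 ∨ s (P.root i) = -1 := by
  obtain ⟨x, hx, h1⟩ := h.faith i
  have h2 := h.sx x hx
  have h3 := h.sx _ (h.sub_mem' hx h1)
  rw [map_sub] at h3
  rcases h2 with h2 | h2 <;> rw [h2] at h3 <;> rcases h3 with h3 | h3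
  · left; linear_combination -h3
  · right; left; linear_combination -h3
  · right; right; linear_combination -h3
  · left; linear_combination -h3

theorem USit.bound (h : USit P X s c) (i j : ι) :
    -2 ≤ P.pairingIn ℤ i j ∧ P.pairingIn ℤ i j ≤ 2 := by
  obtain ⟨x, hx, h1⟩ := h.faith i
  obtain ⟨a, ha, ha'⟩ := (h.ws.small x hx).int j
  obtain ⟨b, hb, hb'⟩ := (h.ws.small _ (h.sub_mem' hx h1)).int j
  rw [map_sub, ha, pair_cast] at hb
  have : a - P.pairingIn ℤ i j = b := by exact_mod_cast hb
  omega

theorem USit.exists_one (h : USit P X s c) : ∃ i, s (P.root i) = 1 := by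
  obtain ⟨i, hi⟩ := h.ex
  rcases h.sroot' i with h1 | h1 | h1
  · exact absurd h1 hi
  · exact ⟨i, h1⟩
  · refine ⟨P.reflectionPerm i i, ?_⟩
    rw [TR.root_neg, map_neg, h1, neg_neg]

theorem USit.val_of_one (h : USit P X s c) {i : ι} (hi : s (P.root i) = 1) {x : M} (hx : x ∈ X)
    (h1 : P.coroot' i x = 1) : s x = c := by
  rcases h.sx x hx with h2 | h2
  · exact h2
  · exfalso
    have h3 := h.sx _ (h.sub_mem' hx h1)
    rw [map_sub, h2, hi] at h3
    rcases h3 with h3 | h3
    · have : (2 : K) = 0 := by linear_combination -h3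
      exact two_ne_zero this
    · exact one_ne_zero (by linear_combination -h3 : (1 : K) = 0)

theorem USit.val_of_neg (h : USit P X s c) {i : ι} (hi : s (P.root i) = 1) {x : M} (hx : x ∈ X)
    (h1 : P.coroot' i x = -1) : s x = c - 1 := by
  rcases h.sx x hx with h2 | h2
  · exfalso
    have h3 := h.sx _ (h.add_mem hx h1)
    rw [map_add, h2, hi] at h3
    rcases h3 with h3 | h3
    · exact one_ne_zero (by linear_combination h3 : (1 : K) = 0)
    · have : (2 : K) = 0 := by linear_combination h3
      exact two_ne_zero this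
  · exact h2

open Classical in
/-- The value of the coweight on the cubic vector. -/
theorem USit.s_cubic (h : USit P X s c) {i : ι} (hi : s (P.root i) = 1) :
    s (∑ x ∈ X, (P.coroot' i x) ^ 2 • x) =
      ((X.filter (fun x => P.coroot' i x = 1)).card : K) * (2 * c - 1) := by
  have h1 : s (∑ x ∈ X, (P.coroot' i x) ^ 2 • x) = ∑ x ∈ X,
      ((if P.coroot' i x = 1 then c else 0) + (if P.coroot' i x = -1 then c - 1 else 0)) := by
    rw [map_sum]
    refine Finset.sum_congr rfl fun x hx => ?_
    rw [map_smul, smul_eq_mul]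
    have hne : (1 : K) ≠ -1 := by
      intro h0
      have : (2 : K) = 0 := by linear_combination h0
      exact two_ne_zero this
    rcases h.ws.small x hx i with h2 | h2 | h2
    · rw [h2, if_neg (fun h0 => hne h0.symm), if_pos rfl, h.val_of_neg hi hx h2]
      ring
    · rw [h2, if_neg (zero_ne_one), if_neg (by
        intro h0
        exact one_ne_zero (by linear_combination h0 : (1 : K) = 0))]
      ring
    · rw [h2, if_pos rfl, if_neg hne, h.val_of_one hi hx h2]
      ring
  rw [h1, Finset.sum_add_distrib, ← Finset.sum_filter, ← Finset.sum_filter, Finset.sum_const,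
    Finset.sum_const]
  have hcard : (X.filter (fun x => P.coroot' i x = -1)).card =
      (X.filter (fun x => P.coroot' i x = 1)).card := by
    refine Finset.card_bij' (fun x _ => P.reflection i x) (fun x _ => P.reflection i x) ?_ ?_ ?_ ?_
    · intro x hx
      rw [Finset.mem_filter] at hx ⊢
      refine ⟨h.ws.refl x hx.1 i, ?_⟩
      rw [coroot_reflection, hx.2, pair_self]
      push_cast
      ring
    · intro x hx
      rw [Finset.mem_filter] at hx ⊢
      refine ⟨h.ws.refl x hx.1 i, ?_⟩
      rw [coroot_reflection, hx.2, pair_self]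
      push_cast
      ring
    · intro x _
      simp
    · intro x _
      simp
  rw [hcard, nsmul_eq_mul, nsmul_eq_mul]
  ring

open Classical in
theorem USit.card_eq [P.IsIrreducible] (h : USit P X s c) (hc : 2 * c = 1) :
    (X.filter (fun x => s x = c)).card = (X.filter (fun x => s x = c - 1)).card := by
  obtain ⟨i0, -⟩ := h.ex
  have h0 : (∑ x ∈ X, (1 : K) • x) = 0 := by
    refine eq_zero_of_coroot' (P := P) Set.univ ⟨i0, Set.mem_univ _⟩ (fun _ _ _ => Set.mem_univ _) ?_
    intro j _
    exact coroot_eq_zero_of_fix (reflection_sum h.ws.refl (fun _ => 1) fun _ _ => rfl)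
  have h1 := congrArg s h0
  rw [map_zero, map_sum] at h1
  have h2 : ∑ x ∈ X, s ((1 : K) • x) = ∑ x ∈ X,
      ((if s x = c then c else 0) + (if s x = c - 1 then c - 1 else 0)) := by
    refine Finset.sum_congr rfl fun x hx => ?_
    rw [one_smul]
    have hne : c ≠ c - 1 := by
      intro h3
      exact one_ne_zero (by linear_combination h3 : (1 : K) = 0)
    rcases h.sx x hx with h3 | h3
    · rw [h3, if_pos rfl, if_neg hne, add_zero]
    · rw [h3, if_neg hne.symm, if_pos rfl, zero_add]
  rw [h2, Finset.sum_add_distrib, ← Finset.sum_filter, ← Finset.sum_filter, Finset.sum_const,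
    Finset.sum_const, nsmul_eq_mul, nsmul_eq_mul] at h1
  have h3 : ((X.filter (fun x => s x = c)).card : K) =
      ((X.filter (fun x => s x = c - 1)).card : K) := by
    linear_combination 2 * h1 - (((X.filter (fun x => s x = c)).card : K) +
      ((X.filter (fun x => s x = c - 1)).card : K)) * hc
  exact_mod_cast h3

theorem USit.len_aux [P.IsReduced] [P.IsIrreducible] (h : USit P X s c)
    (hc : 2 * c ≠ 1) {i : ι} (hi : s (P.root i) = 1) (j : ι) : len P j = len P i := by
  classical
  by_contra hne
  have horth : ∀ k, P.pairingIn ℤ i k = 0 →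
      P.coroot' k (∑ x ∈ X, (P.coroot' i x) ^ 2 • x) = 0 := by
    intro k hk
    refine coroot_eq_zero_of_fix (reflection_sum h.ws.refl (fun x => (P.coroot' i x) ^ 2) ?_)
    intro x _
    rw [coroot_reflection, pair_zero P hk]
    simp
  have hself : P.coroot' i (∑ x ∈ X, (P.coroot' i x) ^ 2 • x) = 0 := by
    refine coroot_eq_zero_of_fix (reflection_sum h.ws.refl (fun x => (P.coroot' i x) ^ 2) ?_)
    intro x _
    rw [coroot_reflection, pair_self]
    push_cast
    ring
  have hv : (∑ x ∈ X, (P.coroot' i x) ^ 2 • x) = 0 := by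
    refine eq_zero_of_coroot' (P := P) {k | len P k ≠ len P i} ⟨j, hne⟩ ?_ ?_
    · intro m k hk
      change len P (P.reflectionPerm m k) ≠ len P i
      rw [TR.len_perm]
      exact hk
    · intro k hk
      have hk' : len P k ≠ len P i := hk
      by_cases h0 : P.pairingIn ℤ i k = 0
      · exact horth k h0
      have h1 : i ≠ k := fun h1 => hk' (by rw [h1])
      have h2 : P.root i ≠ -P.root k := fun h2 => hk' (TR.len_of_neg h2).symm
      have h3 := P.pairingIn_pairingIn_mem_set_of_isCrystal_of_isRed' i k
        (fun hc => h1 (P.root.injective hc)) h2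
      have h4 := h.bound i k
      have h5 := h.bound k i
      have h6 := pair_len P i k
      have h7 : P.pairingIn ℤ k i * P.pairingIn ℤ i k = 2 := by
        simp only [Set.mem_insert_iff, Prod.mk.injEq, Set.mem_singleton_iff] at h3
        rcases h3 with ⟨e1, e2⟩ | ⟨e1, e2⟩ | ⟨e1, e2⟩ | ⟨e1, e2⟩ | ⟨e1, e2⟩ | ⟨e1, e2⟩ | ⟨e1, e2⟩ |
          ⟨e1, e2⟩ | ⟨e1, e2⟩ | ⟨e1, e2⟩ | ⟨e1, e2⟩ <;>
        · rw [e1, e2] at h6
          rw [e1] at h4 h0
          rw [e2] at h5
          rw [e1, e2]
          omega
      have hperp : P.pairingIn ℤ i (P.reflectionPerm k i) = 0 := by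
        have h8 : ((P.pairingIn ℤ i (P.reflectionPerm k i) : ℤ) : K) = 0 := by
          rw [← pair_cast, ← coroot'_reflection, coroot_reflection, pair_cast, pair_cast, pair_self]
          have h9 : ((P.pairingIn ℤ k i : ℤ) : K) * ((P.pairingIn ℤ i k : ℤ) : K) = 2 := by
            exact_mod_cast congrArg (Int.cast (R := K)) h7
          push_cast
          linear_combination -h9
        exact_mod_cast h8
      have h10 := horth _ hperp
      rw [← coroot'_reflection, coroot_reflection, hself, zero_sub, neg_eq_zero] at h10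
      rcases mul_eq_zero.mp h10 with h11 | h11
      · exact h11
      · exfalso
        have h12 : P.pairingIn ℤ k i = 0 := by exact_mod_cast h11
        rw [h12, zero_mul] at h7
        omega
  have h1 := h.s_cubic hi
  rw [hv, map_zero] at h1
  rcases mul_eq_zero.mp h1.symm with h2 | h2
  · obtain ⟨x, hx, hx1⟩ := h.faith i
    have h3 : (X.filter (fun x => P.coroot' i x = 1)).card = 0 := by exact_mod_cast h2
    rw [Finset.card_eq_zero] at h3
    have h4 : x ∈ X.filter (fun x => P.coroot' i x = 1) := Finset.mem_filter.mpr ⟨hx, hx1⟩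
    rw [h3] at h4
    exact absurd h4 (Finset.notMem_empty x)
  · exact hc (by linear_combination h2)

open Classical in
/-- RP1: two root lengths force `p = q`. -/
theorem USit.len_eq [P.IsReduced] [P.IsIrreducible] (h : USit P X s c)
    (_hspan : P.rootSpan K = ⊤)
    (hpq : (X.filter (fun x => s x = c)).card ≠ (X.filter (fun x => s x = c - 1)).card) (i j : ι) :
    len P i = len P j := by
  obtain ⟨i0, hi0⟩ := h.exists_one
  have hc : 2 * c ≠ 1 := fun hc => hpq (h.card_eq hc)
  rw [h.len_aux hc hi0 i, h.len_aux hc hi0 j]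

end UN
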